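import Pool.Agent.Q137.SFT.Defs

set_option autoImplicit false

/-!
# The transition relation on `4 k` states and its pair graph
-/

namespace Q137.SFT

/-- Transitions of the automaton on the states `0, ..., 4 k - 1`. -/
def R (k : ℕ) : Bool → ℕ → ℕ → Prop
  | false, i, j => j = i + 1 ∧ j < 4 * k
  | true, i, j => (i + 1 = 4 * k ∧ j = 0) ∨ (i % 2 = 0 ∧ i + 2 ≤ 2 * k ∧ j = i + 1) ∨
      (i % 2 = 0 ∧ 2 * k ≤ i ∧ j = i + 3 ∧ j < 4 * k)

lemma R_lt {k : ℕ} (hk : 1 ≤ k) {l : Bool} {i j : ℕ} (h : R k l i j) : i < 4 * k ∧ j < 4 * k := by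
  cases l <;> simp only [R] at h <;> omega

lemma R_det {k : ℕ} {l : Bool} {i j j' : ℕ} (h : R k l i j) (h' : R k l i j') : j = j' := by
  cases l <;> simp only [R] at h h' <;> omega

lemma R_inj {k : ℕ} {l : Bool} {i i' j : ℕ} (h : R k l i j) (h' : R k l i' j) : i = i' := by
  cases l <;> simp only [R] at h h' <;> omega

/-- first component of the potential -/
def rho (k i j : ℕ) : ℕ :=
  if (j - i) % 2 = 0 then j - i else if 2 * k < j - i then j - i - 2 * k - 1 else 2 * k - (j - i)

lemma step {k : ℕ} {l : Bool} {i j i' j' : ℕ} (hk : 1 ≤ k) (hij : i < j)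
    (h : R k l i i') (h' : R k l j j') :
    (i' < j' ∧ (rho k i j < rho k i' j' ∨ (rho k i j = rho k i' j' ∧ i < i'))) ∨
    (j' < i' ∧ (rho k i j < rho k j' i' ∨ (rho k i j = rho k j' i' ∧ i < j'))) := by
  cases l
  · simp only [R] at h h'
    left
    unfold rho
    split_ifs <;> omega
  · simp only [R] at h h'
    rcases h with h | h | h <;> rcases h' with h' | h' | h'
    · omega
    · omega
    · omega
    · right; unfold rho; split_ifs <;> omega
    · left; unfold rho; split_ifs <;> omega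
    · left; unfold rho; split_ifs <;> omega
    · right; unfold rho; split_ifs <;> omega
    · omega
    · left; unfold rho; split_ifs <;> omega

/-- potential of an unordered pair of states -/
def pot (k i j : ℕ) : ℕ :=
  if i < j then rho k i j * (4 * k) + i else rho k j i * (4 * k) + j

lemma pot_comm (k i j : ℕ) (h : i ≠ j) : pot k i j = pot k j i := by
  unfold pot
  rcases Nat.lt_or_gt_of_ne h with h1 | h1
  · rw [if_pos h1, if_neg (by omega)]
  · rw [if_neg (by omega), if_pos h1]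

lemma lex_lt {n a b i j : ℕ} (hi : i < n) (h : a < b ∨ (a = b ∧ i < j)) :
    a * n + i < b * n + j := by
  rcases h with h | ⟨h, h'⟩
  · have : (a + 1) * n ≤ b * n := Nat.mul_le_mul_right _ h
    nlinarith
  · subst h; omega

lemma step_pot_aux {k : ℕ} {l : Bool} {i j i' j' : ℕ} (hk : 1 ≤ k) (hij : i < j)
    (h : R k l i i') (h' : R k l j j') : i' ≠ j' ∧ pot k i j < pot k i' j' := by
  have hi := (R_lt hk h).1
  rcases step hk hij h h' with ⟨h1, h2⟩ | ⟨h1, h2⟩
  · refine ⟨by omega, ?_⟩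
    unfold pot
    rw [if_pos hij, if_pos h1]
    exact lex_lt hi h2
  · refine ⟨by omega, ?_⟩
    unfold pot
    rw [if_pos hij, if_neg (by omega)]
    exact lex_lt hi h2

lemma step_pot {k : ℕ} {l : Bool} {i j i' j' : ℕ} (hk : 1 ≤ k) (hij : i ≠ j)
    (h : R k l i i') (h' : R k l j j') : i' ≠ j' ∧ pot k i j < pot k i' j' := by
  rcases Nat.lt_or_gt_of_ne hij with h1 | h1
  · exact step_pot_aux hk h1 h h'
  · obtain ⟨h2, h3⟩ := step_pot_aux hk h1 h' h
    refine ⟨h2.symm, ?_⟩
    rw [pot_comm k i j hij, pot_comm k i' j' h2.symm]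
    exact h3

lemma rho_lt {k i j : ℕ} (hij : i < j) (hj : j < 4 * k) : rho k i j < 4 * k := by
  unfold rho; split_ifs <;> omega

lemma pot_lt {k i j : ℕ} (hij : i ≠ j) (hi : i < 4 * k) (hj : j < 4 * k) :
    pot k i j < (4 * k) * (4 * k) := by
  unfold pot
  split_ifs with h
  · have h1 := rho_lt h hj
    have : (rho k i j + 1) * (4 * k) ≤ (4 * k) * (4 * k) := Nat.mul_le_mul_right _ h1
    nlinarith
  · have h1 := rho_lt (show j < i by omega) hi
    have : (rho k j i + 1) * (4 * k) ≤ (4 * k) * (4 * k) := Nat.mul_le_mul_right _ h1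
    nlinarith

/-- the long word, read from two different states -/
def tokX (k t : ℕ) : ℕ := t % (4 * k)

def tokY (k t : ℕ) : ℕ := (t + 2 * k + 1 + 2 * (t / (4 * k))) % (4 * k)

def let0 (k t : ℕ) : Bool := decide (tokX k t + 1 = 4 * k ∨ tokY k t + 1 = 4 * k)

lemma tok_form {k t : ℕ} (hk : 1 ≤ k) (ht : t < 4 * k * k) :
    ∃ q r : ℕ, q < k ∧ r < 4 * k ∧ t = 4 * k * q + r ∧ tokX k t = r ∧
      ((r + 2 * q + 1 < 2 * k ∧ tokY k t = r + 2 * k + 1 + 2 * q) ∨
       (2 * k ≤ r + 2 * q + 1 ∧ tokY k t + 2 * k = r + 2 * q + 1)) := by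
  have hn : 0 < 4 * k := by omega
  refine ⟨t / (4 * k), t % (4 * k), ?_, Nat.mod_lt _ hn, ?_, rfl, ?_⟩
  · exact Nat.div_lt_of_lt_mul ht
  · exact (Nat.div_add_mod t (4 * k)).symm
  · have hq : t / (4 * k) < k := Nat.div_lt_of_lt_mul ht
    have hr : t % (4 * k) < 4 * k := Nat.mod_lt _ hn
    have ht' : t = 4 * k * (t / (4 * k)) + t % (4 * k) := (Nat.div_add_mod t (4 * k)).symm
    set q := t / (4 * k) with hqdef
    set r := t % (4 * k) with hrdef
    have e1 : tokY k t = (r + 2 * k + 1 + 2 * q) % (4 * k) := by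
      unfold tokY
      rw [← hqdef]
      have : t + 2 * k + 1 + 2 * q = (r + 2 * k + 1 + 2 * q) + (4 * k) * q := by
        omega
      rw [this, Nat.add_mul_mod_self_left]
    rcases Nat.lt_or_ge (r + 2 * q + 1) (2 * k) with h | h
    · left
      refine ⟨h, ?_⟩
      rw [e1, Nat.mod_eq_of_lt (by omega)]
    · right
      refine ⟨h, ?_⟩
      rw [e1, show r + 2 * k + 1 + 2 * q = (r + 2 * q + 1 - 2 * k) + 4 * k by omega,
        Nat.add_mod_right, Nat.mod_eq_of_lt (by omega)]
      omega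

lemma tok_ne {k t : ℕ} (hk : 1 ≤ k) (ht : t < 4 * k * k) : tokX k t ≠ tokY k t := by
  obtain ⟨q, r, hq, hr, -, h1, h2⟩ := tok_form hk ht
  omega

lemma tok_succ {k t q r : ℕ} (hk : 1 ≤ k) (hr : r + 1 < 4 * k) (h : t = 4 * k * q + r) :
    tokX k (t + 1) = r + 1 ∧ tokY k (t + 1) = (r + 1 + 2 * k + 1 + 2 * q) % (4 * k) := by
  have h1 : t + 1 = (r + 1) + 4 * k * q := by omega
  have h2 : (t + 1) / (4 * k) = q := by
    rw [h1, Nat.add_mul_div_left _ _ (by omega), Nat.div_eq_of_lt hr, zero_add]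
  have h3 : (t + 1) % (4 * k) = r + 1 := by
    rw [h1, Nat.add_mul_mod_self_left, Nat.mod_eq_of_lt hr]
  refine ⟨h3, ?_⟩
  unfold tokY
  rw [h2]
  have : t + 1 + 2 * k + 1 + 2 * q = (r + 1 + 2 * k + 1 + 2 * q) + (4 * k) * q := by omega
  rw [this, Nat.add_mul_mod_self_left]

lemma tok_wrap {k t q : ℕ} (hk : 1 ≤ k) (h : t = 4 * k * q + (4 * k - 1)) :
    tokX k (t + 1) = 0 ∧ tokY k (t + 1) = (2 * k + 1 + 2 * (q + 1)) % (4 * k) := by
  have h1 : t + 1 = 0 + 4 * k * (q + 1) := by
    rw [h, Nat.mul_add]; omega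
  have h2 : (t + 1) / (4 * k) = q + 1 := by
    rw [h1, Nat.add_mul_div_left _ _ (by omega), Nat.zero_div, zero_add]
  have h3 : (t + 1) % (4 * k) = 0 := by
    rw [h1, Nat.add_mul_mod_self_left, Nat.zero_mod]
  refine ⟨h3, ?_⟩
  unfold tokY
  rw [h2]
  have : t + 1 + 2 * k + 1 + 2 * (q + 1) = (2 * k + 1 + 2 * (q + 1)) + (4 * k) * (q + 1) := by
    omega
  rw [this, Nat.add_mul_mod_self_left]

lemma tok_step {k t : ℕ} (hk : 1 ≤ k) (ht : t + 1 < 4 * k * k) :
    R k (let0 k t) (tokX k t) (tokX k (t + 1)) ∧ R k (let0 k t) (tokY k t) (tokY k (t + 1)) := by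
  obtain ⟨q, r, hq, hr, he, h1, h2⟩ := tok_form hk (show t < 4 * k * k by omega)
  rcases Nat.lt_or_ge (r + 1) (4 * k) with h3 | h3
  · obtain ⟨h4, h5⟩ := tok_succ hk h3 he
    rcases h2 with ⟨h2, h2'⟩ | ⟨h2, h2'⟩
    · rcases Nat.lt_or_ge (r + 2 * q + 2) (2 * k) with h6 | h6
      · have h7 : tokY k (t + 1) = r + 1 + 2 * k + 1 + 2 * q := by
          rw [h5, Nat.mod_eq_of_lt (by omega)]
        have h8 : let0 k t = false := by
          unfold let0
          simp only [decide_eq_false_iff_not]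
          omega
        rw [h8]
        simp only [R]
        omega
      · have h7 : tokY k (t + 1) = 0 := by
          rw [h5, show r + 1 + 2 * k + 1 + 2 * q = 4 * k by omega, Nat.mod_self]
        have h8 : let0 k t = true := by
          unfold let0
          simp only [decide_eq_true_eq]
          omega
        rw [h8]
        simp only [R]
        omega
    · have h7 : tokY k (t + 1) + 2 * k = r + 1 + 2 * q + 1 := by
        rw [h5, show r + 1 + 2 * k + 1 + 2 * q = (r + 1 + 2 * q + 1 - 2 * k) + 4 * k by omega,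
          Nat.add_mod_right, Nat.mod_eq_of_lt (by omega)]
        omega
      have h8 : let0 k t = false := by
        unfold let0
        simp only [decide_eq_false_iff_not]
        omega
      rw [h8]
      simp only [R]
      omega
  · have hq1 : q + 1 < k := by
      by_contra hc
      have hq' : q + 1 = k := by omega
      have hr' : r + 1 = 4 * k := by omega
      have : t + 1 = 4 * k * k := by
        have : 4 * k * (q + 1) = 4 * k * k := by rw [hq']
        rw [Nat.mul_add] at this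
        omega
      omega
    obtain ⟨h4, h5⟩ := tok_wrap hk (show t = 4 * k * q + (4 * k - 1) by omega)
    have h7 : tokY k (t + 1) = 2 * k + 1 + 2 * (q + 1) := by
      rw [h5, Nat.mod_eq_of_lt (by omega)]
    have h8 : let0 k t = true := by
      unfold let0
      simp only [decide_eq_true_eq]
      omega
    rw [h8]
    simp only [R]
    omega

end Q137.SFT
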