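import Mathlib

set_option autoImplicit false

/-!
# Presentations of shift spaces, synchronizing words and the minimum step

Definitions used in the statement of the quadratic lower bound for the minimum step.
-/

namespace Q137.SFT

/-- A presentation over the alphabet `A`: a finite directed graph (loops and parallel edges are
allowed) with vertex set `V` and edge set `E`, whose edges carry labels from `A`. -/
structure Presentation (A : Type) where
  V : Type
  E : Type
  finV : Finite V
  finE : Finite E
  src : E → V
  tgt : E → V
  lab : E → A

variable {A : Type}

/-- `X_G`: the label sequences of the bi-infinite walks of `G`. -/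
def Presentation.shift (G : Presentation A) : Set (ℤ → A) :=
  {x | ∃ e : ℤ → G.E, (∀ i, G.tgt (e i) = G.src (e (i + 1))) ∧ ∀ i, G.lab (e i) = x i}

/-- No vertex has two outgoing edges with the same label. -/
def Presentation.Deterministic (G : Presentation A) : Prop :=
  ∀ e f : G.E, G.src e = G.src f → G.lab e = G.lab f → e = f

/-- `G.Path v w v'`: some path of `G` from `v` to `v'` is labelled by the word `w` (the empty word
labels the paths of length `0`). -/
def Presentation.Path (G : Presentation A) : G.V → List A → G.V → Prop
  | v, [], v' => v = v'
  | v, a :: w, v' => ∃ e : G.E, G.src e = v ∧ G.lab e = a ∧ G.Path (G.tgt e) w v'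

/-- The word `w` synchronizes to the vertex `q`: some path is labelled `w`, and every path
labelled `w` ends at `q`. -/
def Presentation.SynchronizesTo (G : Presentation A) (w : List A) (q : G.V) : Prop :=
  (∃ v v', G.Path v w v') ∧ ∀ v v', G.Path v w v' → v' = q

/-- Every vertex has a word synchronizing to it. -/
def Presentation.Synchronizing (G : Presentation A) : Prop :=
  ∀ q : G.V, ∃ w : List A, G.SynchronizesTo w q

/-- `X` has a synchronizing deterministic presentation with exactly `k` vertices. -/
def HasSDP (X : Set (ℤ → A)) (k : ℕ) : Prop :=
  ∃ G : Presentation A, G.Deterministic ∧ G.Synchronizing ∧ G.shift = X ∧ Nat.card G.V = k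

/-- `s(X)`: the least number of vertices of a synchronizing deterministic presentation of `X`. -/
noncomputable def s (X : Set (ℤ → A)) : ℕ := sInf {k | HasSDP X k}

/-- `X` is `M`-step: there is a set `F` of words of length `M + 1` such that `X` consists of all
bi-infinite sequences in which no word of `F` occurs. -/
def IsStep (M : ℕ) (X : Set (ℤ → A)) : Prop :=
  ∃ F : Set (Fin (M + 1) → A), X = {x | ∀ i : ℤ, (fun j : Fin (M + 1) => x (i + (j : ℕ))) ∉ F}

/-- `X` is a shift of finite type. -/
def IsSFT (X : Set (ℤ → A)) : Prop := ∃ M, IsStep M X

/-- `m(X)`: the minimum step, the least `M` such that `X` is `M`-step. -/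
noncomputable def m (X : Set (ℤ → A)) : ℕ := sInf {M | IsStep M X}

end Q137.SFT
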