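import Pool.Agent.Q137.SFT.Core

set_option autoImplicit false

/-!
# The shift spaces of the automata and their two parameters
-/

namespace Q137.SFT

/-- edges of the automaton -/
def Edge (k : ℕ) : Type := {t : Fin (4 * k) × Bool × Fin (4 * k) // R k t.2.1 t.1.val t.2.2.val}

/-- the automaton as a presentation -/
def G (k : ℕ) : Presentation Bool where
  V := Fin (4 * k)
  E := Edge k
  finV := inferInstance
  finE := by
    classical
    unfold Edge
    infer_instance
  src e := e.1.1
  tgt e := e.1.2.2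
  lab e := e.1.2.1

lemma mem_shift {k : ℕ} (hk : 1 ≤ k) (x : ℤ → Bool) :
    x ∈ (G k).shift ↔ ∃ v : ℤ → ℕ, ∀ i, R k (x i) (v i) (v (i + 1)) := by
  constructor
  · rintro ⟨e0, h1, h2⟩
    obtain ⟨e, he⟩ : ∃ e : ℤ → Edge k, e = e0 := ⟨e0, rfl⟩
    refine ⟨fun i => (e i).1.1.val, fun i => ?_⟩
    have h3 := (e i).2
    have h4 : (e i).1.2.2 = (e (i + 1)).1.1 := by rw [he]; exact h1 i
    have h5 : (e i).1.2.1 = x i := by rw [he]; exact h2 i
    show R k (x i) (e i).1.1.val (e (i + 1)).1.1.val
    rw [← h4, ← h5]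
    exact h3
  · rintro ⟨v, hv⟩
    have hlt : ∀ i, v i < 4 * k := fun i => (R_lt hk (hv i)).1
    refine ⟨fun i => ⟨(⟨v i, hlt i⟩, x i, ⟨v (i + 1), hlt (i + 1)⟩), hv i⟩, fun i => rfl,
      fun i => rfl⟩

/-- reading a word (a function on `ℕ`, first `t` letters) from two different states -/
lemma pot_grow {k : ℕ} (hk : 1 ≤ k) {x : ℤ → Bool} {u v : ℤ → ℕ} {a : ℤ} {T : ℕ}
    (hu : ∀ i, a ≤ i → i < a + T → R k (x i) (u i) (u (i + 1)))
    (hv : ∀ i, a ≤ i → i < a + T → R k (x i) (v i) (v (i + 1))) (hne : u a ≠ v a) :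
    ∀ t : ℕ, t ≤ T → u (a + t) ≠ v (a + t) ∧ t ≤ pot k (u (a + t)) (v (a + t)) := by
  intro t
  induction t with
  | zero => intro _; simp [hne]
  | succ t ih =>
    intro ht
    obtain ⟨h1, h2⟩ := ih (by omega)
    have h3 := hu (a + t) (by omega) (by omega)
    have h4 := hv (a + t) (by omega) (by omega)
    obtain ⟨h5, h6⟩ := step_pot hk h1 h3 h4
    have e : (a + ((t + 1 : ℕ) : ℤ)) = a + t + 1 := by push_cast; ring
    rw [e]
    exact ⟨h5, by omega⟩

/-- no word of length `(4k)^2` is readable from two different states -/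
lemma unique_start {k : ℕ} (hk : 1 ≤ k) {x : ℤ → Bool} {u v : ℤ → ℕ} {a : ℤ} {T : ℕ}
    (hT : 4 * k * (4 * k) ≤ T)
    (hu : ∀ i, a ≤ i → i < a + T → R k (x i) (u i) (u (i + 1)))
    (hv : ∀ i, a ≤ i → i < a + T → R k (x i) (v i) (v (i + 1))) : u a = v a := by
  by_contra hne
  obtain ⟨h1, h2⟩ := pot_grow hk hu hv hne T le_rfl
  have hpos : 1 ≤ T := by nlinarith
  have h3 : u (a + T) < 4 * k := by
    have := (R_lt hk (hu (a + (T : ℤ) - 1) (by omega) (by omega))).2
    rwa [show a + (T : ℤ) - 1 + 1 = a + T by ring] at this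
  have h4 : v (a + T) < 4 * k := by
    have := (R_lt hk (hv (a + (T : ℤ) - 1) (by omega) (by omega))).2
    rwa [show a + (T : ℤ) - 1 + 1 = a + T by ring] at this
  have h5 := pot_lt h1 h3 h4
  omega

/-- the shift is `(4k)^2`-step -/
lemma isStep {k : ℕ} (hk : 1 ≤ k) : IsStep (4 * k * (4 * k)) (G k).shift := by
  classical
  set M := 4 * k * (4 * k) with hM
  refine ⟨{w | ¬ ∃ v : ℕ → ℕ, ∀ j : Fin (M + 1), R k (w j) (v j) (v (j + 1))}, ?_⟩
  ext x
  rw [mem_shift hk]
  constructor
  · rintro ⟨v, hv⟩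
    intro i hmem
    refine hmem ⟨fun j => v (i + (j : ℤ)), fun j => ?_⟩
    have := hv (i + (j : ℕ))
    have e : (i + ((((j : ℕ) + 1 : ℕ)) : ℤ)) = i + (j : ℕ) + 1 := by push_cast; ring
    simp only [e]
    exact this
  · intro h
    have h1 : ∀ i : ℤ, ∃ v : ℕ → ℕ, ∀ j : Fin (M + 1), R k (x (i + (j : ℕ))) (v j) (v (j + 1)) := by
      intro i
      have := h i
      by_contra hc
      exact this hc
    choose v hv using h1
    refine ⟨fun i => v i 0, fun i => ?_⟩
    have h2 := hv i ⟨0, by omega⟩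
    simp only [Nat.cast_zero, add_zero, zero_add] at h2
    have h3 : v i 1 = v (i + 1) 0 := by
      have := unique_start (k := k) hk (x := x) (u := fun z => v i (z - i).toNat)
        (v := fun z => v (i + 1) (z - (i + 1)).toNat) (a := i + 1) (T := M) le_rfl ?_ ?_
      · simpa using this
      · intro z hz1 hz2
        have h4 := hv i ⟨(z - i).toNat, by omega⟩
        simp only at h4
        have e1 : i + (((z - i).toNat : ℕ) : ℤ) = z := by omega
        have e2 : (z + 1 - i).toNat = (z - i).toNat + 1 := by omega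
        rw [e1] at h4
        rw [e2]
        exact h4
      · intro z hz1 hz2
        have h4 := hv (i + 1) ⟨(z - (i + 1)).toNat, by omega⟩
        simp only at h4
        have e1 : i + 1 + (((z - (i + 1)).toNat : ℕ) : ℤ) = z := by omega
        have e2 : (z + 1 - (i + 1)).toNat = (z - (i + 1)).toNat + 1 := by omega
        rw [e1] at h4
        rw [e2]
        exact h4
    show R k (x i) (v i 0) (v (i + 1) 0)
    rw [← h3]
    exact h2

/-- the label and the states of the cyclic walk through all states -/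
def cyc (k : ℕ) (z : ℤ) : ℕ := (z % (4 * k : ℤ)).toNat

def cycLab (k : ℕ) (z : ℤ) : Bool := decide (cyc k z + 1 = 4 * k)

lemma cyc_lt {k : ℕ} (hk : 1 ≤ k) (z : ℤ) : cyc k z < 4 * k := by
  unfold cyc
  have h1 := Int.emod_lt_of_pos z (show (0 : ℤ) < 4 * k by positivity)
  have h2 := Int.emod_nonneg z (show (4 * k : ℤ) ≠ 0 by positivity)
  omega

lemma cyc_nat {k : ℕ} {a : ℕ} (ha : a < 4 * k) : cyc k (a : ℤ) = a := by
  unfold cyc
  rw [Int.emod_eq_of_lt (by omega) (by omega)]
  simp

lemma cyc_step {k : ℕ} (hk : 1 ≤ k) (z : ℤ) : R k (cycLab k z) (cyc k z) (cyc k (z + 1)) := by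
  have h1 := Int.emod_lt_of_pos z (show (0 : ℤ) < 4 * k by positivity)
  have h2 := Int.emod_nonneg z (show (4 * k : ℤ) ≠ 0 by positivity)
  have h3 : (z + 1) % (4 * k : ℤ) = if z % (4 * k : ℤ) + 1 = 4 * k then 0 else
      z % (4 * k : ℤ) + 1 := by
    split_ifs with h
    · rw [Int.add_emod, show (1 : ℤ) % (4 * k) = 1 from Int.emod_eq_of_lt (by omega) (by omega),
        h, Int.emod_self]
    · rw [Int.add_emod, show (1 : ℤ) % (4 * k) = 1 from Int.emod_eq_of_lt (by omega) (by omega),
        Int.emod_eq_of_lt (by omega) (by omega)]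
  unfold cycLab cyc
  rw [h3]
  split_ifs with h
  · have h4 : (z % (4 * k : ℤ)).toNat + 1 = 4 * k := by omega
    rw [decide_eq_true h4]
    simp only [R]
    left
    exact ⟨h4, by simp⟩
  · have h4 : ¬ (z % (4 * k : ℤ)).toNat + 1 = 4 * k := by omega
    rw [decide_eq_false h4]
    simp only [R]
    omega

/-- splice: the cyclic walk into `p 0`, then `p` for `T` steps, then the cyclic walk out of it -/
lemma extend {k : ℕ} (hk : 1 ≤ k) (T : ℕ) (w : ℕ → Bool) (p : ℕ → ℕ)
    (hp0 : ∀ t, t ≤ T → p t < 4 * k)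
    (hp : ∀ t, t < T → R k (w t) (p t) (p (t + 1))) :
    ∃ (x : ℤ → Bool) (v : ℤ → ℕ), (∀ i, R k (x i) (v i) (v (i + 1))) ∧
      (∀ t : ℕ, t < T → x t = w t) ∧ (∀ t : ℕ, t ≤ T → v t = p t) := by
  refine ⟨fun z => if z < 0 then cycLab k ((p 0 : ℤ) + z) else
      if z < T then w z.toNat else cycLab k ((p T : ℤ) + (z - T)),
    fun z => if z < 0 then cyc k ((p 0 : ℤ) + z) else
      if z ≤ T then p z.toNat else cyc k ((p T : ℤ) + (z - T)), ?_, ?_, ?_⟩
  · intro z
    rcases lt_trichotomy z (-1) with h | h | h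
    · have h1 : z < 0 := by omega
      have h2 : z + 1 < 0 := by omega
      simp only [if_pos h1, if_pos h2]
      have := cyc_step hk ((p 0 : ℤ) + z)
      rwa [show (p 0 : ℤ) + z + 1 = p 0 + (z + 1) by ring] at this
    · subst h
      have := cyc_step hk ((p 0 : ℤ) + (-1))
      rw [show (p 0 : ℤ) + (-1) + 1 = (p 0 : ℤ) by ring, cyc_nat (hp0 0 (by omega))] at this
      simpa using this
    · have h1 : ¬ z < 0 := by omega
      have h2 : ¬ z + 1 < 0 := by omega
      simp only [if_neg h1, if_neg h2]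
      rcases lt_trichotomy z (T : ℤ) with h3 | h3 | h3
      · have h4 : z ≤ T := by omega
        have h5 : z + 1 ≤ T := by omega
        simp only [if_pos h3, if_pos h4, if_pos h5]
        have := hp z.toNat (by omega)
        rwa [show z.toNat + 1 = (z + 1).toNat by omega] at this
      · subst h3
        have h5 : ¬ ((T : ℤ) + 1 ≤ T) := by omega
        simp only [lt_irrefl, if_false, le_refl, if_true, if_neg h5]
        have := cyc_step hk (p T : ℤ)
        rw [cyc_nat (hp0 T le_rfl)] at this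
        simpa using this
      · have h4 : ¬ z < T := by omega
        have h5 : ¬ z ≤ T := by omega
        have h6 : ¬ z + 1 ≤ T := by omega
        simp only [if_neg h4, if_neg h5, if_neg h6]
        have := cyc_step hk ((p T : ℤ) + (z - T))
        rwa [show (p T : ℤ) + (z - T) + 1 = p T + (z + 1 - T) by ring] at this
  · intro t ht
    have h1 : ¬ ((t : ℤ) < 0) := by omega
    have h2 : (t : ℤ) < T := by omega
    simp only [if_neg h1, if_pos h2]
    simp
  · intro t ht
    have h1 : ¬ ((t : ℤ) < 0) := by omega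
    have h2 : (t : ℤ) ≤ T := by omega
    simp only [if_neg h1, if_pos h2]
    simp

/-- two walks with the same labels on a left half-line agree there -/
lemma left_unique {k : ℕ} (hk : 1 ≤ k) {x : ℤ → Bool} {u v : ℤ → ℕ} {b : ℤ}
    (hu : ∀ i, i < b → R k (x i) (u i) (u (i + 1)))
    (hv : ∀ i, i < b → R k (x i) (v i) (v (i + 1))) : u b = v b := by
  by_contra hne
  set T := 4 * k * (4 * k) with hT
  have h0 : u (b - T) ≠ v (b - T) := by
    intro heq
    apply hne
    have : ∀ t : ℕ, t ≤ T → u (b - T + t) = v (b - T + t) := by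
      intro t
      induction t with
      | zero => intro _; simpa using heq
      | succ t ih =>
        intro ht
        have h1 := hu (b - T + t) (by omega)
        have h2 := hv (b - T + t) (by omega)
        rw [ih (by omega)] at h1
        have := R_det h1 h2
        rw [show b - (T : ℤ) + ((t + 1 : ℕ) : ℤ) = b - T + t + 1 by push_cast; ring]
        exact this
    have := this T le_rfl
    rwa [show b - (T : ℤ) + T = b by ring] at this
  exact h0 (unique_start hk (a := b - T) (T := T) le_rfl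
    (fun i _ h => hu i (by omega)) (fun i _ h => hv i (by omega)))

lemma right_unique {k : ℕ} (hk : 1 ≤ k) {x : ℤ → Bool} {u v : ℤ → ℕ} {a : ℤ}
    (hu : ∀ i, a ≤ i → R k (x i) (u i) (u (i + 1)))
    (hv : ∀ i, a ≤ i → R k (x i) (v i) (v (i + 1))) : u a = v a :=
  unique_start hk (T := 4 * k * (4 * k)) le_rfl (fun i h _ => hu i h) (fun i h _ => hv i h)

/-- splicing in an `M`-step shift -/
lemma splice {A : Type} {M : ℕ} {X : Set (ℤ → A)} (hX : IsStep M X) {x y : ℤ → A}
    (hx : x ∈ X) (hy : y ∈ X) (h : ∀ i : ℤ, 0 ≤ i → i < M → x i = y i) :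
    (fun i : ℤ => if i < 0 then x i else y i) ∈ X := by
  obtain ⟨F, rfl⟩ := hX
  intro i hi
  rcases lt_or_ge i 0 with h1 | h1
  · apply hx i
    convert hi using 1
    funext j
    have hj := j.2
    show x (i + ((j : ℕ) : ℤ)) = if i + ((j : ℕ) : ℤ) < 0 then x (i + ((j : ℕ) : ℤ)) else
      y (i + ((j : ℕ) : ℤ))
    split_ifs with h2
    · rfl
    · exact h _ (by omega) (by omega)
  · apply hy i
    convert hi using 1
    funext j
    show y (i + ((j : ℕ) : ℤ)) = if i + ((j : ℕ) : ℤ) < 0 then x (i + ((j : ℕ) : ℤ)) else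
      y (i + ((j : ℕ) : ℤ))
    rw [if_neg (by omega)]

lemma not_isStep {k M : ℕ} (hk : 1 ≤ k) (hM : M < 4 * k * k) : ¬ IsStep M (G k).shift := by
  intro hS
  obtain ⟨x, u, hu, hxw, hup⟩ := extend hk M (let0 k) (tokX k)
    (fun t _ => Nat.mod_lt _ (by omega)) (fun t ht => (tok_step hk (by omega)).1)
  obtain ⟨y, v, hv, hyw, hvp⟩ := extend hk M (let0 k) (tokY k)
    (fun t _ => Nat.mod_lt _ (by omega)) (fun t ht => (tok_step hk (by omega)).2)
  have hx : x ∈ (G k).shift := (mem_shift hk x).2 ⟨u, hu⟩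
  have hy : y ∈ (G k).shift := (mem_shift hk y).2 ⟨v, hv⟩
  have hxy : ∀ i : ℤ, 0 ≤ i → i < M → x i = y i := by
    intro i h0 h1
    have h2 := hxw i.toNat (by omega)
    have h3 := hyw i.toNat (by omega)
    have e : ((i.toNat : ℕ) : ℤ) = i := by omega
    rw [e] at h2 h3
    rw [h2, h3]
  have hz := splice hS hx hy hxy
  obtain ⟨p, hp⟩ := (mem_shift hk _).1 hz
  have hpM : p M = u M := by
    refine left_unique hk (x := x) (b := M) (fun i hi => ?_) (fun i _ => hu i)
    have := hp i
    split_ifs at this with h1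
    · exact this
    · rw [hxy i (by omega) hi]
      exact this
  have hp0 : p 0 = v 0 := by
    refine right_unique hk (x := y) (a := 0) (fun i hi => ?_) (fun i _ => hv i)
    have := hp i
    rwa [if_neg (by omega)] at this
  have hagree : ∀ t : ℕ, t ≤ M → p t = v t := by
    intro t
    induction t with
    | zero => intro _; simpa using hp0
    | succ t ih =>
      intro ht
      have h1 := hp t
      rw [if_neg (by omega)] at h1
      have h2 := hv t
      rw [ih (by omega)] at h1
      have := R_det h1 h2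
      rw [show ((t + 1 : ℕ) : ℤ) = t + 1 by push_cast; ring]
      exact this
  have h1 := hagree M le_rfl
  rw [hpM, hup M le_rfl, hvp M le_rfl] at h1
  exact tok_ne hk hM h1

theorem m_ge {k : ℕ} (hk : 1 ≤ k) : 4 * k * k ≤ m (G k).shift := by
  by_contra h
  push Not at h
  have hne : {M | IsStep M (G k).shift}.Nonempty := ⟨_, isStep hk⟩
  exact not_isStep hk h (Nat.sInf_mem hne)

/-! ### The number of vertices -/

lemma G_det (k : ℕ) : (G k).Deterministic := by
  rintro ⟨⟨v, l, w⟩, h⟩ ⟨⟨v', l', w'⟩, h'⟩ h1 h2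
  have e1 : v = v' := h1
  have e2 : l = l' := h2
  subst e1; subst e2
  have e3 : w = w' := Fin.ext (R_det h h')
  subst e3
  rfl

lemma path_walk {k : ℕ} (w : List Bool) : ∀ (q q' : Fin (4 * k)), (G k).Path q w q' →
    ∃ p : ℕ → ℕ, p 0 = q ∧ p w.length = q' ∧
      ∀ t (ht : t < w.length), R k w[t] (p t) (p (t + 1)) := by
  induction w with
  | nil =>
    intro q q' h
    have h : q = q' := h
    subst h
    exact ⟨fun _ => q, rfl, rfl, fun t ht => absurd ht (by simp)⟩
  | cons a w ih =>
    rintro q q' ⟨e, h1, h2, h3⟩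
    obtain ⟨p, hp0, hp1, hp⟩ := ih _ _ h3
    refine ⟨fun t => if t = 0 then q else p (t - 1), by simp, by simpa using hp1, ?_⟩
    intro t ht
    rcases t with _ | t
    · simp only [if_true, List.getElem_cons_zero, zero_add, one_ne_zero, if_false, Nat.sub_self]
      rw [hp0, ← h1, ← h2]
      exact e.2
    · have := hp t (by simpa using ht)
      simpa using this

lemma walk_path {k : ℕ} (w : List Bool) : ∀ (p : ℕ → ℕ)
    (hlt : ∀ t, t ≤ w.length → p t < 4 * k)
    (hp : ∀ t (ht : t < w.length), R k w[t] (p t) (p (t + 1))),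
    (G k).Path ⟨p 0, hlt 0 (by omega)⟩ w ⟨p w.length, hlt _ le_rfl⟩ := by
  induction w with
  | nil => intro p hlt hp; rfl
  | cons a w ih =>
    intro p hlt hp
    have h0 := hp 0 (by simp)
    refine ⟨⟨(⟨p 0, hlt 0 (by omega)⟩, a, ⟨p 1, hlt 1 (by simp)⟩), by simpa using h0⟩, rfl, rfl,
      ?_⟩
    exact ih (fun t => p (t + 1)) (fun t ht => hlt (t + 1) (by simpa using ht))
      (fun t ht => by
        have := hp (t + 1) (by simpa using ht)
        rwa [List.getElem_cons_succ] at this)

lemma G_sync {k : ℕ} (hk : 1 ≤ k) : (G k).Synchronizing := by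
  intro q
  have hq : q.val < 4 * k := q.2
  set T := 4 * k * (4 * k) with hT
  -- the word read along the cyclic walk of length `T` ending at `q`
  set w : List Bool := List.ofFn (fun t : Fin T => cycLab k ((q.val : ℤ) - T + (t : ℕ))) with hw
  have hlen : w.length = T := by simp [hw]
  have hget : ∀ t (ht : t < w.length), w[t] = cycLab k ((q.val : ℤ) - T + (t : ℕ)) := by
    intro t ht
    simp [hw]
  set c : ℕ → ℕ := fun t => cyc k ((q.val : ℤ) - T + (t : ℕ)) with hc
  have hcw : ∀ t (ht : t < w.length), R k w[t] (c t) (c (t + 1)) := by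
    intro t ht
    rw [hget t ht]
    have := cyc_step hk ((q.val : ℤ) - T + (t : ℕ))
    simp only [hc]
    rwa [show (q.val : ℤ) - T + ((t + 1 : ℕ) : ℤ) = q.val - T + (t : ℕ) + 1 by push_cast; ring]
  have hclast : c T = q.val := by
    simp only [hc]
    rw [show (q.val : ℤ) - T + (T : ℕ) = (q.val : ℤ) by ring]
    exact cyc_nat hq
  refine ⟨w, ?_, ?_⟩
  · exact ⟨_, _, walk_path w c (fun t _ => cyc_lt hk _) hcw⟩
  · intro v v' hp
    obtain ⟨p, hp0, hp1, hpp⟩ := path_walk w v v' hp
    have hstart : p 0 = c 0 := by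
      have := unique_start (k := k) hk
        (x := fun z => cycLab k ((q.val : ℤ) - T + (z.toNat : ℕ)))
        (u := fun z => p z.toNat) (v := fun z => c z.toNat) (a := 0) (T := T) le_rfl ?_ ?_
      · simpa using this
      · intro i h0 h1
        have h2 := hpp i.toNat (by omega)
        rw [hget i.toNat (by omega)] at h2
        have e : (i + 1).toNat = i.toNat + 1 := by omega
        simp only [e]
        exact h2
      · intro i h0 h1
        have h2 := hcw i.toNat (by omega)
        rw [hget i.toNat (by omega)] at h2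
        have e : (i + 1).toNat = i.toNat + 1 := by omega
        simp only [e]
        exact h2
    have hall : ∀ t, t ≤ w.length → p t = c t := by
      intro t
      induction t with
      | zero => intro _; exact hstart
      | succ t ih =>
        intro ht
        have h1 := hpp t (by omega)
        have h2 := hcw t (by omega)
        rw [ih (by omega)] at h1
        exact R_det h1 h2
    have h3 := hall w.length le_rfl
    rw [hp1, hlen, hclast] at h3
    exact Fin.ext h3

lemma hasSDP {k : ℕ} (hk : 1 ≤ k) : HasSDP (G k).shift (4 * k) :=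
  ⟨G k, G_det k, G_sync hk, rfl, by
    show Nat.card (Fin (4 * k)) = 4 * k
    simp⟩

/-- the constant sequence `a` is not in the shift -/
lemma const_not_mem {k : ℕ} (hk : 1 ≤ k) : (fun _ : ℤ => false) ∉ (G k).shift := by
  rw [mem_shift hk]
  rintro ⟨v, hv⟩
  have h : ∀ t : ℕ, v t = v 0 + t := by
    intro t
    induction t with
    | zero => simp
    | succ t ih =>
      have := hv t
      simp only [R] at this
      rw [show ((t + 1 : ℕ) : ℤ) = t + 1 by push_cast; ring, this.1, ih]
      ring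
  have h1 := h (4 * k)
  have h2 := (R_lt hk (hv ((4 * k : ℕ) : ℤ))).1
  omega

/-- the block of `4k - 1` letters `a` occurs -/
lemma block_mem {k : ℕ} (hk : 1 ≤ k) : ∃ x ∈ (G k).shift, ∀ t : ℕ, t + 1 < 4 * k → x t = false := by
  refine ⟨cycLab k, (mem_shift hk _).2 ⟨cyc k, cyc_step hk⟩, fun t ht => ?_⟩
  unfold cycLab
  rw [cyc_nat (by omega)]
  simp
  omega

/-- every presentation of the shift has at least `4k` vertices -/
lemma card_ge {k : ℕ} (hk : 1 ≤ k) (H : Presentation Bool) (hH : H.shift = (G k).shift) :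
    4 * k ≤ Nat.card H.V := by
  classical
  by_contra hlt
  push Not at hlt
  obtain ⟨x, hx, hxa⟩ := block_mem hk
  rw [← hH] at hx
  obtain ⟨e, he1, he2⟩ := hx
  have := H.finV
  have := Fintype.ofFinite H.V
  rw [Nat.card_eq_fintype_card] at hlt
  obtain ⟨i, j, hij, heq⟩ := Fintype.exists_ne_map_eq_of_card_lt
    (fun t : Fin (4 * k) => H.src (e (t.val : ℤ))) (by simpa using hlt)
  wlog hlt' : i < j generalizing i j
  · exact this j i hij.symm heq.symm (lt_of_le_of_ne (not_lt.mp hlt') hij.symm)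
  have hij' : i.val < j.val := hlt'
  have hj := j.2
  -- the periodic walk
  apply const_not_mem hk
  rw [← hH]
  set d : ℕ := j.val - i.val with hd
  have hdpos : 0 < d := by omega
  refine ⟨fun z => e ((i.val : ℤ) + z % (d : ℤ)), ?_, ?_⟩
  · intro z
    have h1 := Int.emod_lt_of_pos z (show (0 : ℤ) < d by omega)
    have h2 := Int.emod_nonneg z (show (d : ℤ) ≠ 0 by omega)
    have h3 : (z + 1) % (d : ℤ) = if z % (d : ℤ) + 1 = d then 0 else z % (d : ℤ) + 1 := by
      split_ifs with h
      · have : (z + 1) % (d : ℤ) = (z % d + 1) % d := by rw [Int.emod_add_emod]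
        rw [this, h, Int.emod_self]
      · have : (z + 1) % (d : ℤ) = (z % d + 1) % d := by rw [Int.emod_add_emod]
        rw [this, Int.emod_eq_of_lt (by omega) (by omega)]
    show H.tgt (e ((i.val : ℤ) + z % (d : ℤ))) = H.src (e ((i.val : ℤ) + (z + 1) % (d : ℤ)))
    rw [h3, he1]
    split_ifs with h
    · rw [show (i.val : ℤ) + z % (d : ℤ) + 1 = (j.val : ℤ) by omega, add_zero]
      exact heq.symm
    · rw [add_assoc]
  · intro z
    have h1 := Int.emod_lt_of_pos z (show (0 : ℤ) < d by omega)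
    have h2 := Int.emod_nonneg z (show (d : ℤ) ≠ 0 by omega)
    show H.lab (e ((i.val : ℤ) + z % (d : ℤ))) = false
    rw [he2]
    have := hxa ((i.val : ℤ) + z % (d : ℤ)).toNat (by omega)
    rwa [show ((((i.val : ℤ) + z % (d : ℤ)).toNat : ℕ) : ℤ) = (i.val : ℤ) + z % (d : ℤ) by omega]
      at this

theorem s_eq {k : ℕ} (hk : 1 ≤ k) : s (G k).shift = 4 * k := by
  apply le_antisymm
  · exact Nat.sInf_le (hasSDP hk)
  · refine le_csInf ⟨_, hasSDP hk⟩ ?_
    rintro n ⟨H, -, -, h3, h4⟩
    rw [← h4]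
    exact card_ge hk H h3

end Q137.SFT
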